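import Pool.Agent.W_MP_84eb94_lc.Final

open Set Cardinal Ordinal

universe u

namespace Pool.Agent.Results.MP_84eb94_lc.NambaIffCH

/-! Forcing notions are nonempty preorders `P`; stronger conditions are smaller. A set `U` of
conditions serves as a name for the event that the generic filter `G` meets `U`, and a family `A`
of such sets, indexed by (tuples of) ground model objects, is a name for the relation that holds
of `i` in the generic extension exactly when `G` meets `A i`. Every relation in the extension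
between ground model objects has such a name. Ordinals and cardinals are those of the ground
model. -/

/-- The condition `p` forces that the generic filter meets `U`: the conditions below some member
of `U` are dense below `p`. -/
def Forces {P : Type u} [Preorder P] (p : P) (U : Set P) : Prop :=
  ∀ q ≤ p, ∃ r ≤ q, ∃ s ∈ U, r ≤ s

/-- `P` adds no reals: for every name `A` of a subset of the natural numbers, the conditions which
force it to be equal to some set `a` of the ground model are dense. -/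
def AddsNoReals (P : Type u) [Preorder P] : Prop :=
  ∀ (A : ℕ → Set P) (p : P), ∃ q ≤ p, ∃ a : Set ℕ,
    ∀ n, (n ∈ a → Forces q (A n)) ∧ (n ∉ a → ∀ r ≤ q, ¬ Forces r (A n))

/-- `D` contains a closed unbounded subset of `ω₁`, namely `D ∩ ω₁`. -/
def IsClub (D : Set Ordinal.{u}) : Prop :=
  (∀ ζ < ω₁, ∃ η ∈ D, ζ < η ∧ η < ω₁) ∧
    ∀ δ, 0 < δ → δ < ω₁ → (∀ ζ < δ, ∃ η ∈ D, ζ < η ∧ η < δ) → δ ∈ D

/-- `S ∩ ω₁` is a stationary subset of `ω₁`. -/
def IsStat (S : Set Ordinal.{u}) : Prop :=
  ∀ D : Set Ordinal.{u}, IsClub D → ∃ δ < ω₁, δ ∈ S ∧ δ ∈ D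

/-- The condition `p` forces the set named by `D` to be closed and unbounded in (the ground model's)
`ω₁`. -/
def ForcesClub {P : Type u} [Preorder P] (p : P) (D : Ordinal.{u} → Set P) : Prop :=
  (∀ ζ < ω₁, Forces p {r | ∃ η, ζ < η ∧ η < ω₁ ∧ r ∈ D η}) ∧
    ∀ δ, 0 < δ → δ < ω₁ → ∀ q ≤ p,
      (∀ ζ < δ, Forces q {r | ∃ η, ζ < η ∧ η < δ ∧ r ∈ D η}) → Forces q (D δ)

/-- `P` is stationary-preserving: every stationary subset `S` of `ω₁` is forced to meet every closed
unbounded subset of `ω₁` of the extension. -/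
def StationaryPreserving (P : Type u) [Preorder P] : Prop :=
  ∀ S : Set Ordinal.{u}, IsStat S → ∀ (p : P) (D : Ordinal.{u} → Set P), ForcesClub p D →
    Forces p {r | ∃ δ < ω₁, δ ∈ S ∧ r ∈ D δ}

/-- The condition `p` forces the relation named by `F` to be a function from `κ` to `θ` whose range
is cofinal in `θ`. -/
def ForcesCofinalMap {P : Type u} [Preorder P] (p : P) (κ θ : Ordinal.{u})
    (F : Ordinal.{u} → Ordinal.{u} → Set P) : Prop :=
  (∀ i < κ, Forces p {r | ∃ η < θ, r ∈ F i η}) ∧
  (∀ i < κ, ∀ η < θ, ∀ η' < θ, η ≠ η' → ∀ q ≤ p, ¬ (Forces q (F i η) ∧ Forces q (F i η'))) ∧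
  (∀ ξ < θ, Forces p {r | ∃ i < κ, ∃ η < θ, ξ ≤ η ∧ r ∈ F i η})

/-- It is forced that there is a cofinal map from `κ` to `θ`. -/
def AlwaysCofinalMap (P : Type u) [Preorder P] (κ θ : Ordinal.{u}) : Prop :=
  ∀ p : P, ∃ q ≤ p, ∃ F, ForcesCofinalMap q κ θ F

/-- It is forced that there is no cofinal map from `κ` to `θ`. -/
def NeverCofinalMap (P : Type u) [Preorder P] (κ θ : Ordinal.{u}) : Prop :=
  ∀ (p : P) (F : Ordinal.{u} → Ordinal.{u} → Set P), ¬ ForcesCofinalMap p κ θ F

/-- The principle `Nb₂(lam)`: there is a forcing notion which is stationary-preserving, adds no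
reals, forces cofinality `ω` for all regular cardinals `α` with `ω₂ ≤ α < lam`, forces cofinality
`ω₁` for `lam`, and forces uncountable cofinality for all regular cardinals `β > lam`. -/
def Nb₂ (lam : Cardinal.{u}) : Prop :=
  ∃ (P : Type u) (_ : Preorder P) (_ : Nonempty P),
    StationaryPreserving P ∧ AddsNoReals P ∧
    (∀ α : Cardinal.{u}, α.IsRegular → ℵ_ 2 ≤ α → α < lam → AlwaysCofinalMap P ω α.ord) ∧
    (AlwaysCofinalMap P ω₁ lam.ord ∧ NeverCofinalMap P ω lam.ord) ∧
    (∀ β : Cardinal.{u}, β.IsRegular → lam < β → NeverCofinalMap P ω β.ord)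

/-- For every regular cardinal `lam` above `ω₂`, weakly inaccessible or not, the principle
`Nb₂(lam)` is equivalent to the continuum hypothesis. -/
theorem result (lam : Cardinal.{u}) (hlam : lam.IsRegular) (h2 : ℵ_ 2 < lam) :
    Nb₂ lam ↔ (2 : Cardinal.{u}) ^ ℵ₀ = ℵ₁ :=
  Pool.Agent.MP84eb94.nb_iff lam hlam h2

end Pool.Agent.Results.MP_84eb94_lc.NambaIffCH
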